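import Pool.Agent.R196.PP.PiecesM

/-!
Piece P10 of MP_68f671_pr (helper325): the origin is occupied with positive probability, and the
second moment of the gap is infinite.
-/

set_option autoImplicit false

namespace Pool.Agent.R325.PP

open MeasureTheory ProbabilityTheory Filter Topology
open scoped ENNReal BigOperators
open Pool.Agent.R196.PP

/-- congruence of a `p`-adic integer and an integer modulo `p^a` -/
def cgr (p : ℕ) [Fact p.Prime] (a : ℕ) (z : ℤ_[p]) (i : ℤ) : Prop :=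
  PadicInt.toZModPow a z = (i : ZMod (p ^ a))

section cgr
variable {p : ℕ} [Fact p.Prime]

theorem cgr_mono {a b : ℕ} (hab : a ≤ b) {z : ℤ_[p]} {i : ℤ} (h : cgr p b z i) : cgr p a z i := by
  unfold cgr at *
  rw [← PadicInt.cast_toZModPow a b hab, h, ZMod.cast_intCast (pow_dvd_pow p hab)]

theorem cgr_modEq {a : ℕ} {z : ℤ_[p]} {i j : ℤ} (h : cgr p a z i) (h' : cgr p a z j) :
    i ≡ j [ZMOD ((p ^ a : ℕ) : ℤ)] := by
  unfold cgr at *
  rw [← ZMod.intCast_eq_intCast_iff, ← h, ← h']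

theorem cgr_of_modEq {a : ℕ} {z : ℤ_[p]} {i j : ℤ} (h : cgr p a z i)
    (h' : i ≡ j [ZMOD ((p ^ a : ℕ) : ℤ)]) : cgr p a z j := by
  unfold cgr at *
  rw [h]
  exact (ZMod.intCast_eq_intCast_iff _ _ _).2 h'

theorem cgr_add {a : ℕ} {z : ℤ_[p]} {i : ℤ} (h : cgr p a z i) (j : ℤ) :
    cgr p a (z + (j : ℤ_[p])) (i + j) := by
  unfold cgr at *
  rw [map_add, map_intCast, h]
  push_cast
  rfl

theorem cgr_val {a : ℕ} {z : ℤ_[p]} {i : ℤ} :
    cgr p a z i ↔ ((PadicInt.toZModPow a z).val : ℤ) = i % ((p ^ a : ℕ) : ℤ) := by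
  have hp : p.Prime := Fact.out
  have : NeZero (p ^ a) := ⟨(pow_pos hp.pos a).ne'⟩
  unfold cgr
  constructor
  · intro h
    rw [h, ZMod.val_intCast]
  · intro h
    rw [← ZMod.val_intCast] at h
    exact ZMod.val_injective _ (by exact_mod_cast h)

end cgr

/-- the finite set of cells of two finite sets of integers -/
noncomputable def cellOf (a b : ℕ) (I J : Finset ℤ) : Finset Pt :=
  I.image (fun i => i % ((3 ^ a : ℕ) : ℤ)) ×ˢ J.image (fun j => j % ((5 ^ b : ℕ) : ℤ))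

theorem cellOf_sub (a b : ℕ) (I J : Finset ℤ) : cellOf a b I J ⊆ cell (3 ^ a) (5 ^ b) := by
  intro v hv
  unfold cellOf at hv
  rw [Finset.mem_product, Finset.mem_image, Finset.mem_image] at hv
  obtain ⟨⟨i, _, hi⟩, ⟨j, _, hj⟩⟩ := hv
  unfold cell
  rw [Finset.mem_product, Finset.mem_Ico, Finset.mem_Ico, ← hi, ← hj]
  have h3 : (0 : ℤ) < ((3 ^ a : ℕ) : ℤ) := by positivity
  have h5 : (0 : ℤ) < ((5 ^ b : ℕ) : ℤ) := by positivity
  exact ⟨⟨Int.emod_nonneg _ h3.ne', Int.emod_lt_of_pos _ h3⟩,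
    ⟨Int.emod_nonneg _ h5.ne', Int.emod_lt_of_pos _ h5⟩⟩

/-- the phases in the classes of `I × J` -/
def Cyl (a b : ℕ) (I J : Finset ℤ) : Set Ph :=
  {u | (∃ i ∈ I, cgr 3 a u.1 i) ∧ (∃ j ∈ J, cgr 5 b u.2 j)}

theorem Cyl_eq (a b : ℕ) (I J : Finset ℤ) : Cyl a b I J =
    {u : Ph | (((PadicInt.toZModPow a u.1).val : ℤ), ((PadicInt.toZModPow b u.2).val : ℤ)) ∈
      cellOf a b I J} := by
  ext u
  unfold Cyl cellOf
  simp only [Set.mem_ofPred_eq, Finset.mem_product, Finset.mem_image, cgr_val]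
  constructor
  · rintro ⟨⟨i, hi, h⟩, ⟨j, hj, h'⟩⟩
    exact ⟨⟨i, hi, h.symm⟩, ⟨j, hj, h'.symm⟩⟩
  · rintro ⟨⟨i, hi, h⟩, ⟨j, hj, h'⟩⟩
    exact ⟨⟨i, hi, h.symm⟩, ⟨j, hj, h'.symm⟩⟩

theorem Cyl_le (hd : P9d) (a b : ℕ) (I J : Finset ℤ) :
    muPh (Cyl a b I J) ≤ ENNReal.ofReal ((I.card * J.card : ℝ) / (3 ^ a * 5 ^ b)) := by
  rw [Cyl_eq, hd a b _ (cellOf_sub a b I J)]
  rw [ENNReal.ofReal_div_of_pos (by positivity)]
  have e1 : ENNReal.ofReal ((3 : ℝ) ^ a * 5 ^ b) = ((3 ^ a * 5 ^ b : ℕ) : ℝ≥0∞) := by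
    rw [← ENNReal.ofReal_natCast]
    congr 1
    push_cast
    rfl
  rw [e1]
  apply ENNReal.div_le_div_right
  have e2 : ENNReal.ofReal ((I.card : ℝ) * J.card) = ((I.card * J.card : ℕ) : ℝ≥0∞) := by
    rw [← ENNReal.ofReal_natCast]
    congr 1
    push_cast
    rfl
  rw [e2]
  have e3 : (cellOf a b I J).card ≤ I.card * J.card := by
    unfold cellOf
    rw [Finset.card_product]
    exact Nat.mul_le_mul Finset.card_image_le Finset.card_image_le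
  exact_mod_cast e3

theorem Cyl_eq_of_inj (hd : P9d) (a b : ℕ) (I J : Finset ℤ)
    (hI : ∀ i ∈ I, ∀ j ∈ I, i ≡ j [ZMOD ((3 ^ a : ℕ) : ℤ)] → i = j)
    (hJ : ∀ i ∈ J, ∀ j ∈ J, i ≡ j [ZMOD ((5 ^ b : ℕ) : ℤ)] → i = j) :
    muPh (Cyl a b I J) = ENNReal.ofReal ((I.card * J.card : ℝ) / (3 ^ a * 5 ^ b)) := by
  rw [Cyl_eq, hd a b _ (cellOf_sub a b I J)]
  rw [ENNReal.ofReal_div_of_pos (by positivity)]
  have e1 : ENNReal.ofReal ((3 : ℝ) ^ a * 5 ^ b) = ((3 ^ a * 5 ^ b : ℕ) : ℝ≥0∞) := by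
    rw [← ENNReal.ofReal_natCast]
    congr 1
    push_cast
    rfl
  rw [e1]
  have e2 : ENNReal.ofReal ((I.card : ℝ) * J.card) = ((I.card * J.card : ℕ) : ℝ≥0∞) := by
    rw [← ENNReal.ofReal_natCast]
    congr 1
    push_cast
    rfl
  rw [e2]
  have e3 : (cellOf a b I J).card = I.card * J.card := by
    unfold cellOf
    rw [Finset.card_product, Finset.card_image_of_injOn, Finset.card_image_of_injOn]
    · intro i hi j hj h
      exact hJ i hi j hj h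
    · intro i hi j hj h
      exact hI i hi j hj h
  rw [e3]

/-! ### numerical facts on the scales -/

theorem kap_ge (s : Scales) (k : ℕ) : (10 : ℝ) ^ 10 * 8 ^ (k + 1) ≤ s.kap (k + 1) := by
  have h := s.kap_big k
  have h1 : 1 ≤ (3 ^ s.aM k * 5 ^ s.bN k) ^ 10 := Nat.one_le_pow _ _ (by positivity)
  have h2 : 10 ^ 10 * 8 ^ (k + 1) * 1 ≤ s.kap (k + 1) :=
    le_trans (Nat.mul_le_mul_left _ h1) h
  rw [mul_one] at h2
  exact_mod_cast h2

theorem kap_ge_one (s : Scales) (k : ℕ) : (1 : ℝ) ≤ s.kap (k + 1) := by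
  have h := kap_ge s k
  have h2 : (1 : ℝ) ≤ 8 ^ (k + 1) := one_le_pow₀ (by norm_num)
  nlinarith

theorem kap_ge_W (s : Scales) (k : ℕ) : 3 ^ s.aM k * 5 ^ s.bN k ≤ s.kap (k + 1) := by
  have h := s.kap_big k
  refine le_trans ?_ h
  have h1 : 3 ^ s.aM k * 5 ^ s.bN k ≤ (3 ^ s.aM k * 5 ^ s.bN k) ^ 10 :=
    Nat.le_self_pow (by norm_num) _
  have h2 : 1 ≤ 10 ^ 10 * 8 ^ (k + 1) := Nat.one_le_iff_ne_zero.2 (by positivity)
  calc 3 ^ s.aM k * 5 ^ s.bN k ≤ (3 ^ s.aM k * 5 ^ s.bN k) ^ 10 := h1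
    _ = 1 * (3 ^ s.aM k * 5 ^ s.bN k) ^ 10 := (one_mul _).symm
    _ ≤ _ := Nat.mul_le_mul_right _ h2

theorem kap_le_L (s : Scales) (k : ℕ) : s.kap (k + 1) ≤ s.L (k + 1) :=
  le_trans (Nat.le_self_pow (by norm_num) _) (s.L_big k)

theorem L_pos (s : Scales) (k : ℕ) : 0 < s.L (k + 1) := by
  have h := kap_ge_one s k
  have h2 : 1 ≤ s.kap (k + 1) := by exact_mod_cast h
  exact lt_of_lt_of_le (by omega) (kap_le_L s k)

theorem aM_mono (s : Scales) : Monotone s.aM := monotone_nat_of_le_succ s.aMs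
theorem bN_mono (s : Scales) : Monotone s.bN := monotone_nat_of_le_succ s.bNs

theorem MN_ge (s : Scales) (k : ℕ) : (s.kap (k + 1) : ℝ) ^ 4 * (s.L (k + 1)) ^ 2 ≤
    3 ^ s.aM (k + 1) * 5 ^ s.bN (k + 1) := by
  have h1 : ((s.kap (k + 1) : ℝ) ^ 2 * s.L (k + 1)) ≤ 3 ^ s.aM (k + 1) := by
    exact_mod_cast s.lowM k
  have h2 : ((s.kap (k + 1) : ℝ) ^ 2 * s.L (k + 1)) ≤ 5 ^ s.bN (k + 1) := by
    exact_mod_cast s.lowN k
  calc (s.kap (k + 1) : ℝ) ^ 4 * (s.L (k + 1)) ^ 2 =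
      ((s.kap (k + 1) : ℝ) ^ 2 * s.L (k + 1)) * ((s.kap (k + 1) : ℝ) ^ 2 * s.L (k + 1)) := by ring
    _ ≤ _ := mul_le_mul h1 h2 (by positivity) (by positivity)

theorem nine_L_sq (s : Scales) (k : ℕ) : 9 * (s.L (k + 1) : ℝ) ^ 2 ≤
    (1 / 8) ^ (k + 1) * (3 ^ s.aM (k + 1) * 5 ^ s.bN (k + 1)) := by
  have h1 := MN_ge s k
  have h2 := kap_ge s k
  have h3 := kap_ge_one s k
  have h4 : (s.kap (k + 1) : ℝ) ≤ (s.kap (k + 1) : ℝ) ^ 4 := le_self_pow₀ h3 (by norm_num)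
  have h5 : (0 : ℝ) < 8 ^ (k + 1) := by positivity
  have h6 : 9 * (8 : ℝ) ^ (k + 1) ≤ (s.kap (k + 1) : ℝ) ^ 4 := by nlinarith
  have h7 : (1 / 8 : ℝ) ^ (k + 1) = 1 / 8 ^ (k + 1) := by rw [one_div_pow]
  rw [h7, div_mul_eq_mul_div, one_mul, le_div_iff₀ h5]
  calc 9 * (s.L (k + 1) : ℝ) ^ 2 * 8 ^ (k + 1) = (9 * 8 ^ (k + 1)) * (s.L (k + 1) : ℝ) ^ 2 := by ring
    _ ≤ (s.kap (k + 1) : ℝ) ^ 4 * (s.L (k + 1) : ℝ) ^ 2 := by
        apply mul_le_mul_of_nonneg_right h6 (by positivity)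
    _ ≤ _ := h1

/-- the phases for which the origin is in a hole of level `m + 1` -/
def Hm (s : Scales) (m : ℕ) : Set Ph :=
  {u | near3 (s.aM (m + 1)) (s.L (m + 1)) u.1 ∧ near5 (s.bN (m + 1)) (s.L (m + 1)) u.2}

theorem near3_iff (a L : ℕ) (z : ℤ_[3]) :
    near3 a L z ↔ ∃ i ∈ Finset.Ioo (-(L : ℤ)) L, cgr 3 a z i := by
  unfold near3 cgr
  simp only [Finset.mem_Ioo, ← abs_lt]

theorem near5_iff (a L : ℕ) (z : ℤ_[5]) :
    near5 a L z ↔ ∃ i ∈ Finset.Ioo (-(L : ℤ)) L, cgr 5 a z i := by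
  unfold near5 cgr
  simp only [Finset.mem_Ioo, ← abs_lt]

theorem card_Ioo_le (L : ℕ) : ((Finset.Ioo (-(L : ℤ)) L).card : ℝ) ≤ 2 * L := by
  rw [Int.card_Ioo]
  have : ((L : ℤ) - -(L : ℤ) - 1).toNat ≤ 2 * L := by omega
  exact_mod_cast this

theorem Hm_le (hd : P9d) (s : Scales) (m : ℕ) : muPh (Hm s m) ≤ ENNReal.ofReal ((1 / 8) ^ (m + 1)) := by
  have h1 : Hm s m ⊆ Cyl (s.aM (m + 1)) (s.bN (m + 1)) (Finset.Ioo (-(s.L (m + 1) : ℤ)) (s.L (m + 1)))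
      (Finset.Ioo (-(s.L (m + 1) : ℤ)) (s.L (m + 1))) := by
    intro u hu
    exact ⟨(near3_iff _ _ _).1 hu.1, (near5_iff _ _ _).1 hu.2⟩
  refine (measure_mono h1).trans ((Cyl_le hd _ _ _ _).trans (ENNReal.ofReal_le_ofReal ?_))
  have h2 := card_Ioo_le (s.L (m + 1))
  have h3 := nine_L_sq s m
  rw [div_le_iff₀ (by positivity)]
  refine le_trans ?_ h3
  have h4 : (0 : ℝ) ≤ ((Finset.Ioo (-(s.L (m + 1) : ℤ)) (s.L (m + 1))).card : ℝ) := by positivity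
  nlinarith

theorem tsum_eighth (σ : ℝ) (hσ : 0 ≤ σ) :
    ∑' m : ℕ, ENNReal.ofReal (σ * (1 / 8) ^ (m + 1)) = ENNReal.ofReal (σ / 7) := by
  have h1 : HasSum (fun m : ℕ => σ * (1 / 8 : ℝ) ^ (m + 1)) (σ / 7) := by
    have h := (hasSum_geometric_of_lt_one (r := (1 / 8 : ℝ)) (by norm_num) (by norm_num)).mul_left
      (σ * (1 / 8))
    have e : σ * (1 / 8) * (1 - 1 / 8 : ℝ)⁻¹ = σ / 7 := by norm_num; ring
    rw [e] at h
    exact h.congr_fun (fun x => by rw [pow_succ]; ring)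
  rw [← h1.tsum_eq, ENNReal.ofReal_tsum_of_nonneg (fun m => by positivity) h1.summable]

theorem zero_mem_iff (s : Scales) (u : Ph) : (0 : Pt) ∈ envB s u ↔ ∀ m, u ∉ Hm s m := by
  unfold envB Hm
  simp

theorem om0_meas : MeasurableSet (Om0 2) := by
  have : Om0 2 = (fun ω : Conf 2 => ω 0) ⁻¹' {true} := by
    ext ω; rfl
  rw [this]
  exact (measurable_pi_apply 0) (measurableSet_singleton true)

theorem Qm_Om0 (hb : P9b) (s : Scales) : Qm s (Om0 2) = muPh {u | (0 : Pt) ∈ envB s u} := by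
  unfold Qm
  rw [Measure.map_apply (hb s) om0_meas]
  congr 1
  ext u
  simp only [Om0, confOf, Set.mem_preimage, Set.mem_ofPred_eq, decide_eq_true_eq]
  have : toPQ 0 = 0 := by
    unfold toPQ; simp
  rw [this]

theorem P10a_holds (ha : P9a) (hb : P9b) (hd : P9d) : P10a := by
  intro s
  have : IsProbabilityMeasure muPh := ha
  rw [Qm_Om0 hb]
  by_contra hc
  have h0 : muPh {u | (0 : Pt) ∈ envB s u} = 0 := by simpa using hc
  have h1 : (Set.univ : Set Ph) ⊆ {u | (0 : Pt) ∈ envB s u} ∪ ⋃ m, Hm s m := by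
    intro u _
    by_cases hu : (0 : Pt) ∈ envB s u
    · exact Or.inl hu
    · right
      rw [zero_mem_iff] at hu
      push Not at hu
      obtain ⟨m, hm⟩ := hu
      exact Set.mem_iUnion.2 ⟨m, hm⟩
  have h2 : (1 : ℝ≥0∞) ≤ ENNReal.ofReal (1 / 7) := by
    calc (1 : ℝ≥0∞) = muPh Set.univ := measure_univ.symm
      _ ≤ muPh ({u | (0 : Pt) ∈ envB s u} ∪ ⋃ m, Hm s m) := measure_mono h1
      _ ≤ muPh {u | (0 : Pt) ∈ envB s u} + muPh (⋃ m, Hm s m) := measure_union_le _ _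
      _ = muPh (⋃ m, Hm s m) := by rw [h0, zero_add]
      _ ≤ ∑' m, muPh (Hm s m) := measure_iUnion_le _
      _ ≤ ∑' m : ℕ, ENNReal.ofReal (1 * (1 / 8) ^ (m + 1)) := by
          apply ENNReal.tsum_le_tsum
          intro m
          rw [one_mul]
          exact Hm_le hd s m
      _ = ENNReal.ofReal (1 / 7) := tsum_eighth 1 (by norm_num)
  rw [← ENNReal.ofReal_one, ENNReal.ofReal_le_ofReal_iff (by norm_num)] at h2
  norm_num at h2

theorem card_cong (L M : ℕ) (hM : 0 < M) (hML : M ≤ L) (v : ℤ) :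
    (({x ∈ Finset.Ioo (-(L : ℤ)) L | x ≡ v [ZMOD (M : ℤ)]}.card : ℕ) : ℝ) ≤ 3 * L / M := by
  have hM' : (0 : ℤ) < M := by exact_mod_cast hM
  have h1 := Int.Ioc_filter_modEq_card (-(L : ℤ)) L hM' v
  have h2 : {x ∈ Finset.Ioo (-(L : ℤ)) L | x ≡ v [ZMOD (M : ℤ)]}.card ≤
      {x ∈ Finset.Ioc (-(L : ℤ)) L | x ≡ v [ZMOD (M : ℤ)]}.card :=
    Finset.card_le_card (Finset.filter_subset_filter _ Finset.Ioo_subset_Ioc_self)
  have hMq : (0 : ℚ) < M := by exact_mod_cast hM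
  have h3 : (({x ∈ Finset.Ioc (-(L : ℤ)) L | x ≡ v [ZMOD (M : ℤ)]}.card : ℕ) : ℚ) ≤ 3 * L / M := by
    have h4 : (({x ∈ Finset.Ioc (-(L : ℤ)) L | x ≡ v [ZMOD (M : ℤ)]}.card : ℕ) : ℚ) =
      ((({x ∈ Finset.Ioc (-(L : ℤ)) L | x ≡ v [ZMOD (M : ℤ)]}.card : ℕ) : ℤ) : ℚ) := by
      push_cast; rfl
    rw [h4, h1]
    push_cast
    apply max_le
    · have h5 := Int.floor_le (((L : ℚ) - v) / M)
      have h6 := Int.lt_floor_add_one ((-(L : ℚ) - v) / M)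
      have h7 : (1 : ℚ) ≤ L / M := by
        rw [le_div_iff₀ hMq, one_mul]; exact_mod_cast hML
      have h8 : ((L : ℚ) - v) / M - (-(L : ℚ) - v) / M = 2 * (L / M) := by ring
      have h9 : 3 * (L : ℚ) / M = 3 * (L / M) := by ring
      rw [h9]
      linarith
    · positivity
  have h4 : (({x ∈ Finset.Ioc (-(L : ℤ)) L | x ≡ v [ZMOD (M : ℤ)]}.card : ℕ) : ℝ) ≤ 3 * L / M := by
    have := (Rat.cast_le (K := ℝ)).2 h3
    push_cast at this
    exact this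
  exact le_trans (by exact_mod_cast h2) h4

/-- the good phases at level `k + 1` -/
def Sk (s : Scales) (k : ℕ) : Set Ph :=
  Cyl (s.aM (k + 1)) (s.bN (k + 1)) {-(s.L (k + 1) : ℤ)} (Finset.Icc (-(s.L (k + 1) : ℤ)) 0)

/-- the proportion of good phases -/
noncomputable def sig (s : Scales) (k : ℕ) : ℝ :=
  ((s.L (k + 1) : ℝ) + 1) / (3 ^ s.aM (k + 1) * 5 ^ s.bN (k + 1))

theorem card_Icc_L (L : ℕ) : ((Finset.Icc (-(L : ℤ)) 0).card : ℝ) = L + 1 := by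
  rw [Int.card_Icc]
  have : (0 + 1 - -(L : ℤ)).toNat = L + 1 := by omega
  rw [this]
  push_cast
  rfl

theorem Sk_eq (hd : P9d) (s : Scales) (k : ℕ) : muPh (Sk s k) = ENNReal.ofReal (sig s k) := by
  unfold Sk sig
  rw [Cyl_eq_of_inj hd]
  · congr 1
    rw [card_Icc_L]
    simp
  · intro i hi j hj _
    rw [Finset.mem_singleton] at hi hj
    rw [hi, hj]
  · intro i hi j hj h
    rw [Finset.mem_Icc] at hi hj
    have hN := (s.step k).bigN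
    have h1 := h.dvd
    have h2 : j - i = 0 := by
      apply Int.eq_zero_of_abs_lt_dvd h1
      rw [abs_lt]
      have : (8 * (s.L (k + 1) : ℤ) + 5) ≤ ((5 ^ s.bN (k + 1) : ℕ) : ℤ) := by exact_mod_cast hN
      constructor <;> omega
    omega

/-- good phases swallowed at a later level -/
theorem Gm_le (hd : P9d) (s : Scales) (k m : ℕ) (hkm : k < m) :
    muPh (Sk s k ∩ Hm s m) ≤ ENNReal.ofReal (sig s k * (1 / 8) ^ (m + 1)) := by
  set L := s.L (k + 1) with hL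
  set Lm := s.L (m + 1) with hLm
  set I : Finset ℤ := {x ∈ Finset.Ioo (-(Lm : ℤ)) Lm |
    x ≡ -(L : ℤ) [ZMOD ((3 ^ s.aM (k + 1) : ℕ) : ℤ)]} with hI
  set J : Finset ℤ := (Finset.Icc (-(L : ℤ)) 0).biUnion fun q =>
    {x ∈ Finset.Ioo (-(Lm : ℤ)) Lm | x ≡ q [ZMOD ((5 ^ s.bN (k + 1) : ℕ) : ℤ)]} with hJ
  have haM : s.aM (k + 1) ≤ s.aM (m + 1) := aM_mono s (by omega)
  have hbN : s.bN (k + 1) ≤ s.bN (m + 1) := bN_mono s (by omega)
  have h1 : Sk s k ∩ Hm s m ⊆ Cyl (s.aM (m + 1)) (s.bN (m + 1)) I J := by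
    rintro u ⟨⟨⟨i, hi, hi'⟩, ⟨j, hj, hj'⟩⟩, hu1, hu2⟩
    rw [near3_iff] at hu1
    rw [near5_iff] at hu2
    obtain ⟨i2, hi2, hi2'⟩ := hu1
    obtain ⟨j2, hj2, hj2'⟩ := hu2
    rw [Finset.mem_singleton] at hi
    subst hi
    refine ⟨⟨i2, ?_, hi2'⟩, ⟨j2, ?_, hj2'⟩⟩
    · rw [hI, Finset.mem_filter]
      exact ⟨hi2, cgr_modEq (cgr_mono haM hi2') hi'⟩
    · rw [hJ, Finset.mem_biUnion]
      refine ⟨j, hj, ?_⟩
      rw [Finset.mem_filter]
      exact ⟨hj2, cgr_modEq (cgr_mono hbN hj2') hj'⟩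
  refine (measure_mono h1).trans ((Cyl_le hd _ _ _ _).trans (ENNReal.ofReal_le_ofReal ?_))
  have hWm := kap_ge_W s m
  have hkL := kap_le_L s m
  have haM' : 3 ^ s.aM (k + 1) ≤ 3 ^ s.aM m := Nat.pow_le_pow_right (by norm_num) (aM_mono s (by omega))
  have hbN' : 5 ^ s.bN (k + 1) ≤ 5 ^ s.bN m := Nat.pow_le_pow_right (by norm_num) (bN_mono s (by omega))
  have hML : 3 ^ s.aM (k + 1) ≤ Lm := by
    have : 3 ^ s.aM m * 1 ≤ 3 ^ s.aM m * 5 ^ s.bN m := Nat.mul_le_mul_left _ (Nat.one_le_pow _ _ (by norm_num))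
    omega
  have hNL : 5 ^ s.bN (k + 1) ≤ Lm := by
    have : 1 * 5 ^ s.bN m ≤ 3 ^ s.aM m * 5 ^ s.bN m := Nat.mul_le_mul_right _ (Nat.one_le_pow _ _ (by norm_num))
    omega
  have hIc : (I.card : ℝ) ≤ 3 * Lm / (3 ^ s.aM (k + 1) : ℕ) :=
    card_cong Lm (3 ^ s.aM (k + 1)) (by positivity) hML _
  have hJc : (J.card : ℝ) ≤ ((L : ℝ) + 1) * (3 * Lm / (5 ^ s.bN (k + 1) : ℕ)) := by
    have e1 : (J.card : ℝ) ≤ ∑ q ∈ Finset.Icc (-(L : ℤ)) 0,
        (({x ∈ Finset.Ioo (-(Lm : ℤ)) Lm | x ≡ q [ZMOD ((5 ^ s.bN (k + 1) : ℕ) : ℤ)]}.card : ℕ) : ℝ) := by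
      have := Finset.card_biUnion_le (s := Finset.Icc (-(L : ℤ)) 0) (t := fun q =>
        {x ∈ Finset.Ioo (-(Lm : ℤ)) Lm | x ≡ q [ZMOD ((5 ^ s.bN (k + 1) : ℕ) : ℤ)]})
      exact_mod_cast this
    refine e1.trans ?_
    rw [← card_Icc_L, ← nsmul_eq_mul]
    apply Finset.sum_le_card_nsmul
    intro q _
    exact card_cong Lm (5 ^ s.bN (k + 1)) (by positivity) hNL q
  have h9 := nine_L_sq s m
  rw [div_le_iff₀ (by positivity)]
  unfold sig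
  rw [← hL]
  push_cast at hIc hJc
  have hM0 : (0 : ℝ) < 3 ^ s.aM (k + 1) := by positivity
  have hN0 : (0 : ℝ) < 5 ^ s.bN (k + 1) := by positivity
  calc (I.card : ℝ) * J.card ≤ (3 * Lm / 3 ^ s.aM (k + 1)) *
        (((L : ℝ) + 1) * (3 * Lm / 5 ^ s.bN (k + 1))) :=
        mul_le_mul hIc hJc (by positivity) (by positivity)
    _ = ((L : ℝ) + 1) / (3 ^ s.aM (k + 1) * 5 ^ s.bN (k + 1)) * (9 * (Lm : ℝ) ^ 2) := by
        field_simp
        ring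
    _ ≤ ((L : ℝ) + 1) / (3 ^ s.aM (k + 1) * 5 ^ s.bN (k + 1)) *
        ((1 / 8) ^ (m + 1) * (3 ^ s.aM (m + 1) * 5 ^ s.bN (m + 1))) :=
        mul_le_mul_of_nonneg_left h9 (by positivity)
    _ = _ := by ring

/-- the phases with the origin occupied and the next `L - 1` points removed -/
def Tk (s : Scales) (k : ℕ) : Set Ph :=
  {u | (0 : Pt) ∈ envB s u ∧ ∀ j : ℕ, 1 ≤ j → j < s.L (k + 1) → (((j : ℤ), (j : ℤ)) : Pt) ∉ envB s u}

theorem Sk_not_Hm_same (s : Scales) (k : ℕ) (u : Ph) (hu : u ∈ Sk s k) : u ∉ Hm s k := by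
  rintro ⟨h3, _⟩
  rw [near3_iff] at h3
  obtain ⟨i, hi, hi'⟩ := h3
  obtain ⟨⟨i2, hi2, hi2'⟩, _⟩ := hu
  rw [Finset.mem_singleton] at hi2
  subst hi2
  rw [Finset.mem_Ioo] at hi
  have h1 := (cgr_modEq hi' hi2').dvd
  have hM : (8 * (s.L (k + 1) : ℤ) + 5) ≤ ((3 ^ s.aM (k + 1) : ℕ) : ℤ) := by
    exact_mod_cast (s.step k).bigM
  have h2 : -(s.L (k + 1) : ℤ) - i = 0 := by
    apply Int.eq_zero_of_abs_lt_dvd h1
    rw [abs_lt]
    constructor <;> omega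
  omega

theorem Sk_not_Hm_lower (s : Scales) (k m : ℕ) (hmk : m < k) (u : Ph) (hu : u ∈ Sk s k) :
    u ∉ Hm s m := by
  rintro ⟨h3, _⟩
  rw [near3_iff] at h3
  obtain ⟨i, hi, hi'⟩ := h3
  obtain ⟨⟨i2, hi2, hi2'⟩, _⟩ := hu
  rw [Finset.mem_singleton] at hi2
  subst hi2
  rw [Finset.mem_Ioo] at hi
  have h1 := (cgr_modEq hi' (cgr_mono (aM_mono s (by omega)) hi2')).dvd
  have hM : (8 * (s.L (m + 1) : ℤ) + 5) ≤ ((3 ^ s.aM (m + 1) : ℕ) : ℤ) := by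
    exact_mod_cast (s.step m).bigM
  obtain ⟨c, hc⟩ := (s.step k).congM
  have h3 : ((3 ^ s.aM (m + 1) : ℕ) : ℤ) ∣ 2 * (s.L (k + 1) : ℤ) + 1 := by
    have e1 : 3 ^ s.aM (m + 1) ∣ 2 * s.L (k + 1) + 1 := by
      rw [hc]
      exact Dvd.dvd.mul_left (pow_dvd_pow 3 (aM_mono s (by omega))) _
    exact_mod_cast e1
  have h4 : ((3 ^ s.aM (m + 1) : ℕ) : ℤ) ∣ 1 - 2 * i := by
    have e2 : 1 - 2 * i = (2 * (s.L (k + 1) : ℤ) + 1) + 2 * (-(s.L (k + 1) : ℤ) - i) := by ring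
    rw [e2]
    exact dvd_add h3 (Dvd.dvd.mul_left h1 2)
  have h5 : 1 - 2 * i = 0 := by
    apply Int.eq_zero_of_abs_lt_dvd h4
    rw [abs_lt]
    constructor <;> omega
  omega

theorem Sk_removed (s : Scales) (k : ℕ) (u : Ph) (hu : u ∈ Sk s k) (j : ℕ) (hj1 : 1 ≤ j)
    (hj2 : j < s.L (k + 1)) : (((j : ℤ), (j : ℤ)) : Pt) ∉ envB s u := by
  intro h
  apply h k
  obtain ⟨⟨i2, hi2, hi2'⟩, ⟨q, hq, hq'⟩⟩ := hu
  rw [Finset.mem_singleton] at hi2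
  subst hi2
  rw [Finset.mem_Icc] at hq
  rw [near3_iff, near5_iff]
  refine ⟨⟨-(s.L (k + 1) : ℤ) + j, ?_, cgr_add hi2' _⟩, ⟨q + j, ?_, cgr_add hq' _⟩⟩
  · rw [Finset.mem_Ioo]
    constructor <;> omega
  · rw [Finset.mem_Ioo]
    constructor <;> omega

theorem Tk_ge (hd : P9d) (s : Scales) (k : ℕ) :
    ENNReal.ofReal (sig s k / 2) ≤ muPh (Tk s k) := by
  have hsig : 0 ≤ sig s k := by unfold sig; positivity
  have h1 : Sk s k ⊆ Tk s k ∪ ⋃ m, (if k < m then Sk s k ∩ Hm s m else ∅) := by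
    intro u hu
    by_cases hm : ∃ m, k < m ∧ u ∈ Hm s m
    · right
      obtain ⟨m, hkm, hm⟩ := hm
      refine Set.mem_iUnion.2 ⟨m, ?_⟩
      rw [if_pos hkm]
      exact ⟨hu, hm⟩
    · left
      push Not at hm
      refine ⟨?_, fun j hj1 hj2 => Sk_removed s k u hu j hj1 hj2⟩
      rw [zero_mem_iff]
      intro m
      rcases lt_trichotomy m k with h | h | h
      · exact Sk_not_Hm_lower s k m h u hu
      · subst h
        exact Sk_not_Hm_same s m u hu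
      · exact hm m h
  have h2 : ENNReal.ofReal (sig s k) ≤ muPh (Tk s k) + ENNReal.ofReal (sig s k / 7) := by
    calc ENNReal.ofReal (sig s k) = muPh (Sk s k) := (Sk_eq hd s k).symm
      _ ≤ muPh (Tk s k ∪ ⋃ m, (if k < m then Sk s k ∩ Hm s m else ∅)) := measure_mono h1
      _ ≤ muPh (Tk s k) + muPh (⋃ m, (if k < m then Sk s k ∩ Hm s m else ∅)) :=
        measure_union_le _ _
      _ ≤ muPh (Tk s k) + ∑' m, muPh (if k < m then Sk s k ∩ Hm s m else ∅) := by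
          gcongr
          exact measure_iUnion_le _
      _ ≤ muPh (Tk s k) + ∑' m : ℕ, ENNReal.ofReal (sig s k * (1 / 8) ^ (m + 1)) := by
          gcongr with m
          split_ifs with h
          · exact Gm_le hd s k m h
          · simp
      _ = _ := by rw [tsum_eighth _ hsig]
  have h3 : ENNReal.ofReal (sig s k) - ENNReal.ofReal (sig s k / 7) ≤ muPh (Tk s k) :=
    tsub_le_iff_right.2 h2
  refine le_trans ?_ h3
  rw [← ENNReal.ofReal_sub _ (by positivity)]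
  apply ENNReal.ofReal_le_ofReal
  linarith

theorem sig_ge (s : Scales) (k : ℕ) : (k : ℝ) ≤ (s.L (k + 1) : ℝ) ^ 2 * (sig s k / 2) := by
  have hkap := kap_ge s k
  have hkap1 := kap_ge_one s k
  have hL : (s.kap (k + 1) : ℝ) ^ 6 ≤ s.L (k + 1) := by exact_mod_cast s.L_big k
  have hM : (3 : ℝ) ^ s.aM (k + 1) ≤ 3 * ((s.kap (k + 1) : ℝ) ^ 2 * s.L (k + 1)) := by
    exact_mod_cast s.upM k
  have hN : (5 : ℝ) ^ s.bN (k + 1) ≤ 5 * ((s.kap (k + 1) : ℝ) ^ 2 * s.L (k + 1)) := by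
    exact_mod_cast s.upN k
  have hL0 : (0 : ℝ) < s.L (k + 1) := by exact_mod_cast L_pos s k
  set κ := (s.kap (k + 1) : ℝ) with hκ
  set L := (s.L (k + 1) : ℝ) with hLd
  have hk8 : (k : ℝ) ≤ 8 ^ (k + 1) := by
    have : k < 8 ^ (k + 1) := lt_trans (Nat.lt_succ_self k) (Nat.lt_pow_self (by norm_num))
    exact_mod_cast this.le
  have h1 : 30 * (k : ℝ) ≤ κ ^ 2 := by nlinarith
  have hMN : (3 : ℝ) ^ s.aM (k + 1) * 5 ^ s.bN (k + 1) ≤ 15 * κ ^ 4 * L ^ 2 := by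
    calc (3 : ℝ) ^ s.aM (k + 1) * 5 ^ s.bN (k + 1) ≤ (3 * (κ ^ 2 * L)) * (5 * (κ ^ 2 * L)) :=
          mul_le_mul hM hN (by positivity) (by positivity)
      _ = _ := by ring
  have hMN0 : (0 : ℝ) < 3 ^ s.aM (k + 1) * 5 ^ s.bN (k + 1) := by positivity
  have h2 : (L + 1) / (15 * κ ^ 4 * L ^ 2) ≤ sig s k := by
    unfold sig
    rw [← hLd]
    apply div_le_div_of_nonneg_left (by positivity) hMN0 hMN
  have h3 : (k : ℝ) ≤ L ^ 2 * ((L + 1) / (15 * κ ^ 4 * L ^ 2) / 2) := by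
    have e1 : L ^ 2 * ((L + 1) / (15 * κ ^ 4 * L ^ 2) / 2) = (L + 1) / (30 * κ ^ 4) := by
      field_simp
      norm_num
    rw [e1, le_div_iff₀ (by positivity)]
    have h4 : 0 ≤ κ ^ 4 := by positivity
    have h5 : (30 * (k : ℝ)) * κ ^ 4 ≤ κ ^ 2 * κ ^ 4 := mul_le_mul_of_nonneg_right h1 h4
    have h6 : κ ^ 2 * κ ^ 4 = κ ^ 6 := by ring
    nlinarith
  refine h3.trans ?_
  gcongr

/-- the event in configuration space -/
def Tc (s : Scales) (k : ℕ) : Set (Conf 2) :=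
  {ω | ω 0 = true ∧ ∀ j : ℕ, 1 ≤ j → j < s.L (k + 1) → ω ((j : ℤ) • (Pi.single 0 1 : Fin 2 → ℤ)) = false}

theorem Tc_meas (s : Scales) (k : ℕ) : MeasurableSet (Tc s k) := by
  have e : Tc s k = {ω : Conf 2 | ω 0 = true} ∩ ⋂ j : ℕ, ⋂ (_ : 1 ≤ j), ⋂ (_ : j < s.L (k + 1)),
      {ω : Conf 2 | ω ((j : ℤ) • (Pi.single 0 1 : Fin 2 → ℤ)) = false} := by
    ext ω
    simp [Tc]
  rw [e]
  refine om0_meas.inter (MeasurableSet.iInter fun j => MeasurableSet.iInter fun _ =>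
    MeasurableSet.iInter fun _ => ?_)
  have h : Measurable fun ω : Conf 2 => ω ((j : ℤ) • (Pi.single 0 1 : Fin 2 → ℤ)) :=
    measurable_pi_apply _
  exact h (measurableSet_singleton false)

theorem toPQ_e0 (j : ℤ) : toPQ (j • (Pi.single 0 1 : Fin 2 → ℤ)) = (j, j) := by
  unfold toPQ
  simp

theorem Qm_Tc (hb : P9b) (s : Scales) (k : ℕ) : Qm s (Tc s k) = muPh (Tk s k) := by
  unfold Qm
  rw [Measure.map_apply (hb s) (Tc_meas s k)]
  congr 1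
  ext u
  have h0 : toPQ 0 = 0 := by
    unfold toPQ; simp
  simp only [Tc, Tk, confOf, Set.mem_preimage, Set.mem_ofPred_eq, decide_eq_true_eq,
    decide_eq_false_iff_not, toPQ_e0, h0]

theorem shift_iter (e : Fin 2 → ℤ) (n : ℕ) (ω : Conf 2) (y : Fin 2 → ℤ) :
    ((shiftConf e)^[n] ω) y = ω ((n : ℤ) • e + y) := by
  induction n generalizing ω with
  | zero => simp
  | succ n ih =>
    rw [Function.iterate_succ_apply, ih]
    show ω (e + ((n : ℤ) • e + y)) = _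
    congr 1
    push_cast
    rw [add_smul, one_smul]
    abel

/-- recurrence: almost surely the gap is the distance to an actual point -/
theorem ae_exists (hc : P9c) (s : Scales) [IsProbabilityMeasure (Qm s)] :
    ∀ᵐ ω ∂(Qm s), ω ∈ Om0 2 → ∃ n : ℕ, 1 ≤ n ∧ ω ((n : ℤ) • (Pi.single 0 1 : Fin 2 → ℤ)) = true := by
  have h1 := (hc s 0).toMeasurePreserving.conservative.ae_mem_imp_frequently_image_mem
    (om0_meas.nullMeasurableSet (μ := Qm s))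
  filter_upwards [h1] with ω hω h0
  obtain ⟨n, hn1, hn2⟩ := ((hω h0).and_eventually (eventually_ge_atTop 1)).exists
  refine ⟨n, hn2, ?_⟩
  have h2 : ((shiftConf (Pi.single 0 1 : Fin 2 → ℤ))^[n] ω) 0 = true := hn1
  rw [shift_iter, add_zero] at h2
  exact h2

theorem gap_ge (s : Scales) (k : ℕ) (ω : Conf 2) (hω : ω ∈ Tc s k)
    (hex : ∃ n : ℕ, 1 ≤ n ∧ ω ((n : ℤ) • (Pi.single 0 1 : Fin 2 → ℤ)) = true) :
    s.L (k + 1) ≤ gap ω 0 ((0 : Fin 2), true) := by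
  unfold gap
  apply le_csInf
  · obtain ⟨n, hn, h⟩ := hex
    refine ⟨n, hn, ?_⟩
    rw [zero_add]
    simpa [dirVec] using h
  · rintro j ⟨hj1, hj2⟩
    by_contra hlt
    have h := hω.2 j hj1 (not_le.1 hlt)
    rw [zero_add] at hj2
    have h2 : ω ((j : ℤ) • (Pi.single 0 1 : Fin 2 → ℤ)) = true := by simpa [dirVec] using hj2
    rw [h2] at h
    exact absurd h (by decide)

theorem P10b_holds (ha : P9a) (hb : P9b) (hc : P9c) (hd : P9d) : P10b := by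
  intro s
  have : IsProbabilityMeasure muPh := ha
  have hQ : IsProbabilityMeasure (Qm s) :=
    Measure.isProbabilityMeasure_map (hb s).aemeasurable
  have hkey : ∀ k : ℕ, (k : ℝ≥0∞) ≤
      ∫⁻ ω in Om0 2, ((gap ω 0 ((0 : Fin 2), true) : ℕ) : ℝ≥0∞) ^ 2 ∂(Qm s) := by
    intro k
    have h1 : ∫⁻ ω in Om0 2, (Tc s k).indicator (fun _ => ((s.L (k + 1) : ℕ) : ℝ≥0∞) ^ 2) ω ∂(Qm s) ≤
        ∫⁻ ω in Om0 2, ((gap ω 0 ((0 : Fin 2), true) : ℕ) : ℝ≥0∞) ^ 2 ∂(Qm s) := by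
      apply lintegral_mono_ae
      rw [ae_restrict_iff' om0_meas]
      filter_upwards [ae_exists hc s] with ω hω h0
      by_cases hT : ω ∈ Tc s k
      · rw [Set.indicator_of_mem hT]
        have := gap_ge s k ω hT (hω h0)
        gcongr
      · rw [Set.indicator_of_notMem hT]
        exact zero_le
    refine le_trans ?_ h1
    rw [lintegral_indicator_const (Tc_meas s k), Measure.restrict_apply (Tc_meas s k)]
    have h2 : Tc s k ∩ Om0 2 = Tc s k := Set.inter_eq_left.2 fun ω hω => hω.1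
    rw [h2, Qm_Tc hb]
    have h3 := Tk_ge hd s k
    have h4 : ((s.L (k + 1) : ℕ) : ℝ≥0∞) ^ 2 = ENNReal.ofReal ((s.L (k + 1) : ℝ) ^ 2) := by
      rw [ENNReal.ofReal_pow (by positivity), ENNReal.ofReal_natCast]
    calc (k : ℝ≥0∞) = ENNReal.ofReal (k : ℝ) := (ENNReal.ofReal_natCast k).symm
      _ ≤ ENNReal.ofReal ((s.L (k + 1) : ℝ) ^ 2 * (sig s k / 2)) :=
        ENNReal.ofReal_le_ofReal (sig_ge s k)
      _ = ENNReal.ofReal ((s.L (k + 1) : ℝ) ^ 2) * ENNReal.ofReal (sig s k / 2) :=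
        ENNReal.ofReal_mul (by positivity)
      _ ≤ _ := by rw [h4]; gcongr
  have htop : ∫⁻ ω in Om0 2, ((gap ω 0 ((0 : Fin 2), true) : ℕ) : ℝ≥0∞) ^ 2 ∂(Qm s) = ∞ := by
    by_contra hne
    obtain ⟨k, hk⟩ := ENNReal.exists_nat_gt hne
    exact absurd (hkey k) (not_le.2 hk)
  unfold ProbabilityTheory.cond
  rw [lintegral_smul_measure, htop, smul_eq_mul]
  apply ENNReal.mul_top
  rw [Ne, ENNReal.inv_eq_zero]
  exact measure_ne_top _ _

end Pool.Agent.R325.PP
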